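import Pool.Agent.W2helper3.BQ.Stm

/-!
# Project BQ, piece DV: the first variation
-/

set_option autoImplicit false

open MeasureTheory Set Filter Topology
open scoped SchwartzMap ENNReal ContDiff BigOperators

namespace Pool.Agent.W2helper3.BQ

namespace DVaux

theorem young {p : ℝ} (hp : 4 ≤ p) (a b : ℂ) :
    ‖b‖ ^ (p - 2) * ((starRingEnd ℂ) b * a).re ≤ (1 - 1 / p) * ‖b‖ ^ p + 1 / p * ‖a‖ ^ p := by
  have hp0 : 0 < p := by linarith
  have h1 : ((starRingEnd ℂ) b * a).re ≤ ‖b‖ * ‖a‖ := by
    refine (Complex.re_le_norm _).trans ?_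
    rw [norm_mul, RCLike.norm_conj]
  have hb := norm_nonneg b
  have ha := norm_nonneg a
  have h2 : ‖b‖ ^ (p - 2) * ((starRingEnd ℂ) b * a).re ≤ ‖b‖ ^ (p - 1) * ‖a‖ := by
    calc ‖b‖ ^ (p - 2) * ((starRingEnd ℂ) b * a).re ≤ ‖b‖ ^ (p - 2) * (‖b‖ * ‖a‖) :=
          mul_le_mul_of_nonneg_left h1 (Real.rpow_nonneg hb _)
      _ = ‖b‖ ^ (p - 1) * ‖a‖ := by
          rw [← mul_assoc]
          congr 1
          have : p - 1 = (p - 2) + 1 := by ring
          rw [this, Real.rpow_add_one' hb (by linarith)]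
  refine h2.trans ?_
  have h3 := Real.geom_mean_le_arith_mean2_weighted (w₁ := 1 - 1 / p) (w₂ := 1 / p)
    (p₁ := ‖b‖ ^ p) (p₂ := ‖a‖ ^ p) (by
      have : 1 / p ≤ 1 := by rw [div_le_one hp0]; linarith
      linarith) (by positivity) (Real.rpow_nonneg hb _) (Real.rpow_nonneg ha _) (by ring)
  rw [← Real.rpow_mul hb, ← Real.rpow_mul ha] at h3
  have e1 : p * (1 - 1 / p) = p - 1 := by field_simp
  have e2 : p * (1 / p) = 1 := by field_simp
  rw [e1, e2, Real.rpow_one] at h3
  exact h3

theorem cont_w {p : ℝ} (hp : 4 ≤ p) {x : ℝ → ℂ} (hx : Continuous x) :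
    Continuous fun u => ‖x u‖ ^ (p - 2) :=
  hx.norm.rpow_const fun _ => Or.inr (by linarith)

theorem int_pow {p : ℝ} (hp : 4 ≤ p) {x : ℝ → ℂ} (hx : Continuous x) (hc : HasCompactSupport x) :
    Integrable fun u => ‖x u‖ ^ p := by
  refine Continuous.integrable_of_hasCompactSupport
    (hx.norm.rpow_const fun _ => Or.inr (by linarith)) ?_
  refine hc.mono ?_
  intro u hu
  rw [Function.mem_support] at hu ⊢
  intro h
  exact hu (by rw [h, norm_zero, Real.zero_rpow (by linarith)])

/-- the integrand -/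
theorem int_mix {p : ℝ} (hp : 4 ≤ p) {x g : ℝ → ℂ} (hx : Continuous x) (hc : HasCompactSupport x)
    (hg : Continuous g) :
    Integrable fun u => ‖x u‖ ^ (p - 2) * ((starRingEnd ℂ) (x u) * g u).re := by
  refine Continuous.integrable_of_hasCompactSupport
    ((cont_w hp hx).mul (Complex.continuous_re.comp
      ((Complex.continuous_conj.comp hx).mul hg))) ?_
  refine hc.mono ?_
  intro u hu
  rw [Function.mem_support] at hu ⊢
  intro h
  exact hu (by rw [h, map_zero, zero_mul, Complex.zero_re, mul_zero])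

/-- differentiation of the correlation -/
theorem deriv_mix {p : ℝ} (hp : 4 ≤ p) {x g : ℝ → ℂ} (hx : Continuous x)
    (hc : HasCompactSupport x) (hg : ContDiff ℝ 1 g) (hgc : HasCompactSupport g) (v : ℝ) :
    HasDerivAt (fun v => ∫ u, ‖x u‖ ^ (p - 2) * ((starRingEnd ℂ) (x u) * g (u + v)).re)
      (∫ u, ‖x u‖ ^ (p - 2) * ((starRingEnd ℂ) (x u) * deriv g (u + v)).re) v := by
  have hxd : Continuous (deriv g) := hg.continuous_deriv le_rfl
  have hgk : Continuous g := hg.continuous
  have hdx : ∀ u, HasDerivAt g (deriv g u) u := fun u =>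
    (hg.differentiable one_ne_zero u).hasDerivAt
  obtain ⟨M, hM⟩ : ∃ M, ∀ u, ‖deriv g u‖ ≤ M := hgc.deriv.exists_bound_of_continuous hxd
  refine (hasDerivAt_integral_of_dominated_loc_of_deriv_le (F := fun v u =>
    ‖x u‖ ^ (p - 2) * ((starRingEnd ℂ) (x u) * g (u + v)).re)
    (F' := fun v u => ‖x u‖ ^ (p - 2) * ((starRingEnd ℂ) (x u) * deriv g (u + v)).re)
    (bound := fun u => ‖x u‖ ^ (p - 2) * (‖x u‖ * M)) (s := Set.univ) univ_mem ?_ ?_ ?_ ?_ ?_
    ?_).2
  · exact Eventually.of_forall fun v' => (int_mix hp hx hc (g := fun u => g (u + v'))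
      (hgk.comp (continuous_add_const v'))).aestronglyMeasurable
  · exact int_mix hp hx hc (g := fun u => g (u + v)) (hgk.comp (continuous_add_const v))
  · exact (int_mix hp hx hc (g := fun u => deriv g (u + v))
      (hxd.comp (continuous_add_const v))).aestronglyMeasurable
  · refine Eventually.of_forall fun u v' _ => ?_
    rw [norm_mul, Real.norm_of_nonneg (Real.rpow_nonneg (norm_nonneg _) _)]
    refine mul_le_mul_of_nonneg_left ?_ (Real.rpow_nonneg (norm_nonneg _) _)
    refine (Complex.abs_re_le_norm _).trans ?_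
    rw [norm_mul, RCLike.norm_conj]
    exact mul_le_mul_of_nonneg_left (hM _) (norm_nonneg _)
  · refine Continuous.integrable_of_hasCompactSupport
      ((cont_w hp hx).mul (hx.norm.mul continuous_const)) ?_
    refine hc.mono ?_
    intro u hu
    rw [Function.mem_support] at hu ⊢
    intro h
    exact hu (by rw [h, norm_zero, zero_mul, mul_zero])
  · refine Eventually.of_forall fun u v' _ => ?_
    have h1 : HasDerivAt (fun v => g (u + v)) (deriv g (u + v')) v' := by
      have := (hdx (u + v')).scomp v' ((hasDerivAt_id v').const_add u)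
      rw [one_smul] at this
      exact this
    have h2 : HasDerivAt (fun v => (starRingEnd ℂ) (x u) * g (u + v))
        ((starRingEnd ℂ) (x u) * deriv g (u + v')) v' := h1.const_mul _
    have h3 : HasDerivAt (fun v => ((starRingEnd ℂ) (x u) * g (u + v)).re)
        ((starRingEnd ℂ) (x u) * deriv g (u + v')).re v' := by
      exact (Complex.reCLM.hasFDerivAt (x := (starRingEnd ℂ) (x u) * g (u + v'))).comp_hasDerivAt
        v' h2
    exact h3.const_mul _

/-- the diagonal value -/
theorem diag {p : ℝ} (hp : 4 ≤ p) (z : ℂ) :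
    ‖z‖ ^ (p - 2) * ((starRingEnd ℂ) z * z).re = ‖z‖ ^ p := by
  have h1 : ((starRingEnd ℂ) z * z).re = ‖z‖ ^ (2 : ℕ) := by
    rw [mul_comm, Complex.mul_conj, Complex.normSq_eq_norm_sq]
    exact Complex.ofReal_re _
  rw [h1]
  have : p = (p - 2) + (2 : ℕ) := by push_cast; ring
  conv_rhs => rw [this]
  rw [Real.rpow_add_natCast' (norm_nonneg _) (by push_cast; linarith)]

end DVaux

open DVaux in
theorem p_DV : P_DV := by
  intro p hp x D hx hc hD
  have hp0 : 0 < p := by linarith
  have hxc : Continuous x := hx.continuous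
  have hxd : Continuous (deriv x) := hx.continuous_deriv le_rfl
  have hdx : ∀ u, HasDerivAt x (deriv x u) u := fun u =>
    (hx.differentiable one_ne_zero u).hasDerivAt
  have hcd : HasCompactSupport (deriv x) := hc.deriv
  set φ : ℝ → ℂ := fun u => x u - p * deriv x u with hφ
  have hφc : Continuous φ := hxc.sub (continuous_const.mul hxd)
  have hφs : HasCompactSupport φ := by
    refine HasCompactSupport.sub hc ?_
    exact hcd.mul_left
  set P : ℝ := ∫ u, ‖x u‖ ^ p with hP
  -- Young, integrated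
  have key : ∀ g : ℝ → ℂ, Continuous g → HasCompactSupport g → ∀ v : ℝ,
      ∫ u, ‖x u‖ ^ (p - 2) * ((starRingEnd ℂ) (x u) * g (u + v)).re ≤
        (1 - 1 / p) * P + 1 / p * ∫ u, ‖g u‖ ^ p := by
    intro g hg hgs v
    have hi1 := int_mix hp hxc hc (g := fun u => g (u + v)) (hg.comp (continuous_add_const v))
    have hi2 : Integrable fun u => ‖g (u + v)‖ ^ p := (int_pow hp hg hgs).comp_add_right v
    have h1 : ∫ u, ‖x u‖ ^ (p - 2) * ((starRingEnd ℂ) (x u) * g (u + v)).re ≤
        ∫ u, ((1 - 1 / p) * ‖x u‖ ^ p + 1 / p * ‖g (u + v)‖ ^ p) :=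
      integral_mono hi1 (((int_pow hp hxc hc).const_mul _).add (hi2.const_mul _))
        fun u => young hp (g (u + v)) (x u)
    rw [integral_add ((int_pow hp hxc hc).const_mul _) (hi2.const_mul _), integral_const_mul,
      integral_const_mul, integral_add_right_eq_self (fun u => ‖g u‖ ^ p) v] at h1
    exact h1
  set J : ℝ → ℝ := fun v => ∫ u, ‖x u‖ ^ (p - 2) * ((starRingEnd ℂ) (x u) * x (u + v)).re with hJ
  have hJ0 : J 0 = P := by
    rw [hJ, hP]
    refine integral_congr_ae (Eventually.of_forall fun u => ?_)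
    simp only [add_zero]
    exact diag hp (x u)
  have hexp : ∀ v, p * ∫ u, ‖x u‖ ^ (p - 2) * ((starRingEnd ℂ) (x u) * (x u - x (u + v))).re =
      p * (P - J v) := by
    intro v
    rw [← hJ0, hJ]
    simp only
    rw [← integral_sub (int_mix hp hxc hc (g := fun u => x (u + 0))
      (hxc.comp (continuous_add_const 0))) (int_mix hp hxc hc (g := fun u => x (u + v))
      (hxc.comp (continuous_add_const v)))]
    congr 1
    refine integral_congr_ae (Eventually.of_forall fun u => ?_)
    simp only [add_zero]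
    rw [mul_sub, Complex.sub_re, mul_sub]
  -- derivative
  have hJ' : ∀ v, HasDerivAt J
      (∫ u, ‖x u‖ ^ (p - 2) * ((starRingEnd ℂ) (x u) * deriv x (u + v)).re) v :=
    fun v => deriv_mix hp hxc hc hx hc v
  -- the differential inequality
  have hineq : ∀ v, -p * (∫ u, ‖x u‖ ^ (p - 2) * ((starRingEnd ℂ) (x u) * deriv x (u + v)).re) ≤
      (p * (P - J v) + D) / p := by
    intro v
    have h1 := key φ hφc hφs v
    have h2 : ∫ u, ‖x u‖ ^ (p - 2) * ((starRingEnd ℂ) (x u) * φ (u + v)).re =
        J v - p * ∫ u, ‖x u‖ ^ (p - 2) * ((starRingEnd ℂ) (x u) * deriv x (u + v)).re := by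
      rw [hJ, ← integral_const_mul]
      simp only
      rw [← integral_sub (int_mix hp hxc hc (g := fun u => x (u + v))
        (hxc.comp (continuous_add_const v))) ((int_mix hp hxc hc (g := fun u => deriv x (u + v))
        (hxd.comp (continuous_add_const v))).const_mul _)]
      refine integral_congr_ae (Eventually.of_forall fun u => ?_)
      simp only [hφ]
      rw [mul_sub, Complex.sub_re]
      have : (starRingEnd ℂ) (x u) * ((p : ℂ) * deriv x (u + v)) =
          (p : ℂ) * ((starRingEnd ℂ) (x u) * deriv x (u + v)) := by ring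
      rw [this, Complex.re_ofReal_mul]
      ring
    rw [h2] at h1
    have h3 : (1 - 1 / p) * P + 1 / p * ∫ u, ‖φ u‖ ^ p ≤ P + D / p := by
      have : 1 / p * ∫ u, ‖φ u‖ ^ p ≤ 1 / p * (P + D) :=
        mul_le_mul_of_nonneg_left hD (by positivity)
      have e : 1 / p * (P + D) = 1 / p * P + D / p := by ring
      rw [e] at this
      linarith
    have h4 : (p * (P - J v) + D) / p = P - J v + D / p := by
      field_simp
    rw [h4]
    linarith
  intro v hv
  rw [hexp v]
  constructor
  · refine mul_nonneg hp0.le ?_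
    have h1 := key x hxc hc v
    have : (1 - 1 / p) * P + 1 / p * P = P := by ring
    rw [← hP, this] at h1
    linarith
  · -- Gronwall
    set d : ℝ → ℝ := fun v => Real.exp (-(v / p)) * (p * (P - J v) + D) with hd
    have hd' : ∀ v, HasDerivAt d (Real.exp (-(v / p)) * (-(1 / p)) * (p * (P - J v) + D) +
        Real.exp (-(v / p)) * (p * (0 -
          ∫ u, ‖x u‖ ^ (p - 2) * ((starRingEnd ℂ) (x u) * deriv x (u + v)).re))) v := by
      intro v
      refine HasDerivAt.mul ?_ ?_
      · exact ((hasDerivAt_id v).div_const p).neg.exp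
      · exact (((hasDerivAt_const v P).sub (hJ' v)).const_mul p).add_const D
    have hanti : Antitone d := by
      refine antitone_of_deriv_nonpos (fun v => (hd' v).differentiableAt) fun v => ?_
      rw [(hd' v).deriv]
      have h1 := hineq v
      have h2 : Real.exp (-(v / p)) * (-(1 / p)) * (p * (P - J v) + D) +
        Real.exp (-(v / p)) * (p * (0 -
          ∫ u, ‖x u‖ ^ (p - 2) * ((starRingEnd ℂ) (x u) * deriv x (u + v)).re)) =
          Real.exp (-(v / p)) * ((-p * ∫ u, ‖x u‖ ^ (p - 2) *
            ((starRingEnd ℂ) (x u) * deriv x (u + v)).re) - (p * (P - J v) + D) / p) := by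
        ring
      rw [h2]
      exact mul_nonpos_of_nonneg_of_nonpos (Real.exp_pos _).le (by linarith)
    have h1 := hanti hv
    rw [hd] at h1
    simp only [zero_div, neg_zero, Real.exp_zero, one_mul] at h1
    rw [hJ0, sub_self, mul_zero, zero_add] at h1
    have h2 : Real.exp (v / p) * (Real.exp (-(v / p)) * (p * (P - J v) + D)) ≤
        Real.exp (v / p) * D := mul_le_mul_of_nonneg_left h1 (Real.exp_pos _).le
    rw [← mul_assoc, ← Real.exp_add, add_neg_cancel, Real.exp_zero, one_mul] at h2
    linarith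

end Pool.Agent.W2helper3.BQ
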