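import Pool.Agent.W2helper44.BQ.DV

/-!
# Project BQ, piece FO: the first-order term
-/

set_option autoImplicit false

open MeasureTheory Set Filter Topology
open scoped SchwartzMap ENNReal ContDiff BigOperators

namespace Pool.Agent.W2helper3.BQ

open DVaux in
theorem p_FO : P_FO := by
  intro hDV p hp x ξ D i hi hx hc hξ hξc hode hD
  have hp0 : 0 < p := by linarith
  set α : ℝ := 1 / p + i with hα
  have hα0 : 0 < α := by positivity
  have hpα : p * α = 1 + p * i := by rw [hα]; field_simp
  have hxc : Continuous x := hx.continuous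
  set η : ℝ → ℂ := fun u => ξ u + p * x u with hη
  have hηd : ContDiff ℝ 1 η := hξ.add (contDiff_const.mul hx)
  have hηs : HasCompactSupport η := HasCompactSupport.add hξc hc.mul_left
  have hηc : Continuous η := hηd.continuous
  have hode' : ∀ u, deriv η u = α * η u - (p * i : ℝ) * x u := by
    intro u
    have h1 : deriv η u = deriv ξ u + p * deriv x u := by
      rw [hη]
      have hd1 : DifferentiableAt ℝ ξ u := hξ.differentiable one_ne_zero u
      have hd2 : DifferentiableAt ℝ x u := hx.differentiable one_ne_zero u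
      exact (hd1.hasDerivAt.add (hd2.hasDerivAt.const_mul (p : ℂ))).deriv
    have h2 := hode u
    have h3 : (p : ℂ) * (α : ℂ) = 1 + (p : ℂ) * (i : ℂ) := by exact_mod_cast hpα
    rw [h1, hη]
    push_cast
    have h4 : deriv ξ u = (α : ℂ) * ξ u + (x u - p * deriv x u) := by
      rw [← h2]; ring
    rw [h4]
    linear_combination (-x u) * h3
  set P : ℝ := ∫ u, ‖x u‖ ^ p with hP
  set J : ℝ → ℝ := fun v => ∫ u, ‖x u‖ ^ (p - 2) * ((starRingEnd ℂ) (x u) * x (u + v)).re with hJ
  set K : ℝ → ℝ := fun v => ∫ u, ‖x u‖ ^ (p - 2) * ((starRingEnd ℂ) (x u) * η (u + v)).re with hK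
  have hK' : ∀ v, HasDerivAt K (α * K v - p * i * J v) v := by
    intro v
    have h1 := deriv_mix hp hxc hc hηd hηs v
    refine h1.congr_deriv ?_
    rw [hK, hJ, ← integral_const_mul, ← integral_const_mul]
    rw [← integral_sub ((int_mix hp hxc hc (g := fun u => η (u + v))
      (hηc.comp (continuous_add_const v))).const_mul _) ((int_mix hp hxc hc (g := fun u => x (u + v))
      (hxc.comp (continuous_add_const v))).const_mul _)]
    refine integral_congr_ae (Eventually.of_forall fun u => ?_)
    simp only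
    rw [hode', mul_sub, Complex.sub_re]
    have e1 : (starRingEnd ℂ) (x u) * ((α : ℂ) * η (u + v)) =
        (α : ℂ) * ((starRingEnd ℂ) (x u) * η (u + v)) := by ring
    have e2 : (starRingEnd ℂ) (x u) * (((p * i : ℝ) : ℂ) * x (u + v)) =
        ((p * i : ℝ) : ℂ) * ((starRingEnd ℂ) (x u) * x (u + v)) := by ring
    rw [e1, e2, Complex.re_ofReal_mul, Complex.re_ofReal_mul]
    ring
  -- bound of `K`
  obtain ⟨M, hM⟩ : ∃ M, ∀ v, |K v| ≤ M := by
    obtain ⟨M, hM⟩ : ∃ M, ∀ u, ‖η u‖ ≤ M := hηs.exists_bound_of_continuous hηc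
    refine ⟨∫ u, ‖x u‖ ^ (p - 2) * (‖x u‖ * M), fun v => ?_⟩
    have hI : Integrable fun u => ‖x u‖ ^ (p - 2) * (‖x u‖ * M) := by
      refine Continuous.integrable_of_hasCompactSupport
        ((cont_w hp hxc).mul (hxc.norm.mul continuous_const)) ?_
      refine hc.mono ?_
      intro u hu
      rw [Function.mem_support] at hu ⊢
      intro h
      exact hu (by rw [h, norm_zero, zero_mul, mul_zero])
    rw [← Real.norm_eq_abs]
    refine norm_integral_le_of_norm_le hI (Eventually.of_forall fun u => ?_)
    rw [norm_mul, Real.norm_of_nonneg (Real.rpow_nonneg (norm_nonneg _) _)]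
    refine mul_le_mul_of_nonneg_left ?_ (Real.rpow_nonneg (norm_nonneg _) _)
    refine (Complex.abs_re_le_norm _).trans ?_
    rw [norm_mul, RCLike.norm_conj]
    exact mul_le_mul_of_nonneg_left (hM _) (norm_nonneg _)
  have hd0 : ∀ v, 0 ≤ v → 0 ≤ p * (P - J v) ∧ p * (P - J v) ≤ (Real.exp (v / p) - 1) * D := by
    intro v hv
    have h1 := hDV p hp x D hx hc hD v hv
    have h2 : p * ∫ u, ‖x u‖ ^ (p - 2) * ((starRingEnd ℂ) (x u) * (x u - x (u + v))).re =
        p * (P - J v) := by
      rw [hP, hJ]
      simp only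
      rw [← integral_sub (int_pow hp hxc hc) (int_mix hp hxc hc (g := fun u => x (u + v))
        (hxc.comp (continuous_add_const v)))]
      congr 1
      refine integral_congr_ae (Eventually.of_forall fun u => ?_)
      simp only
      rw [mul_sub, Complex.sub_re, mul_sub, diag hp]
    rw [h2] at h1
    exact h1
  -- the quantity to bound
  set L : ℝ → ℝ := fun v => p * K v - p ^ 2 * i * P / α with hL
  have hL0 : p * ∫ u, ‖x u‖ ^ (p - 2) * ((starRingEnd ℂ) (x u) *
      (ξ u + (1 / α : ℝ) * x u)).re = L 0 := by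
    rw [hL, hK]
    simp only [add_zero]
    have h1 : ∀ u, ‖x u‖ ^ (p - 2) * ((starRingEnd ℂ) (x u) * (ξ u + (1 / α : ℝ) * x u)).re =
        ‖x u‖ ^ (p - 2) * ((starRingEnd ℂ) (x u) * η u).re - (p * i / α) * ‖x u‖ ^ p := by
      intro u
      rw [← diag hp (x u)]
      have e1 : (starRingEnd ℂ) (x u) * (ξ u + (1 / α : ℝ) * x u) =
          (starRingEnd ℂ) (x u) * η u + ((1 / α - p : ℝ) : ℂ) * ((starRingEnd ℂ) (x u) * x u) := by
        rw [hη]; push_cast; ring
      rw [e1, Complex.add_re, Complex.re_ofReal_mul]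
      have e2 : 1 / α - p = -(p * i / α) := by
        field_simp
        linarith
      rw [e2]
      ring
    have h2 : ∫ u, ‖x u‖ ^ (p - 2) * ((starRingEnd ℂ) (x u) * (ξ u + (1 / α : ℝ) * x u)).re =
        (∫ u, ‖x u‖ ^ (p - 2) * ((starRingEnd ℂ) (x u) * η u).re) - (p * i / α) * P := by
      rw [hP, ← integral_const_mul, ← integral_sub (int_mix hp hxc hc hηc)
        ((int_pow hp hxc hc).const_mul _)]
      exact integral_congr_ae (Eventually.of_forall h1)
    rw [h2]
    ring
  have hL' : ∀ v, HasDerivAt L (α * L v + p * i * (p * (P - J v))) v := by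
    intro v
    have h1 : HasDerivAt L (p * (α * K v - p * i * J v)) v :=
      ((hK' v).const_mul p).sub_const _
    refine h1.congr_deriv ?_
    rw [hL]
    field_simp
    ring
  have hlim : ∀ c : ℝ, 0 < c → Tendsto (fun v : ℝ => Real.exp (-(c * v))) atTop (𝓝 0) := by
    intro c hc'
    refine Real.tendsto_exp_neg_atTop_nhds_zero.comp ?_
    exact tendsto_id.const_mul_atTop hc'
  have hLb : ∀ v, |L v| ≤ p * M + |p ^ 2 * i * P / α| := by
    intro v
    rw [hL]
    refine (abs_sub _ _).trans (add_le_add ?_ le_rfl)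
    rw [abs_mul, abs_of_pos hp0]
    exact mul_le_mul_of_nonneg_left (hM v) hp0.le
  have hlimL : Tendsto (fun v => Real.exp (-(α * v)) * L v) atTop (𝓝 0) := by
    refine squeeze_zero_norm (a := fun v => Real.exp (-(α * v)) * (p * M + |p ^ 2 * i * P / α|))
      (fun v => ?_) ?_
    · rw [norm_mul, Real.norm_of_nonneg (Real.exp_pos _).le, Real.norm_eq_abs]
      exact mul_le_mul_of_nonneg_left (hLb v) (Real.exp_pos _).le
    · have := (hlim α hα0).mul_const (p * M + |p ^ 2 * i * P / α|)
      rwa [zero_mul] at this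
  have hE' : ∀ c v : ℝ, HasDerivAt (fun v => Real.exp (-(c * v))) (Real.exp (-(c * v)) * (-c)) v := by
    intro c v
    have h1 : HasDerivAt (fun v => -(c * v)) (-(c * 1)) v := ((hasDerivAt_id v).const_mul c).neg
    rw [mul_one] at h1
    exact h1.exp
  have hd1 : ∀ v, HasDerivAt (fun v => Real.exp (-(α * v)) * L v)
      (Real.exp (-(α * v)) * (p * i * (p * (P - J v)))) v := by
    intro v
    refine ((hE' α v).mul (hL' v)).congr_deriv ?_
    ring
  rw [hL0]
  -- upper bound `L 0 ≤ 0`
  have hup : L 0 ≤ 0 := by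
    have hmono : MonotoneOn (fun v => Real.exp (-(α * v)) * L v) (Set.Ici 0) := by
      refine monotoneOn_of_deriv_nonneg (convex_Ici 0)
        (fun v _ => (hd1 v).continuousAt.continuousWithinAt)
        (fun v _ => (hd1 v).differentiableAt.differentiableWithinAt) ?_
      intro v hv
      rw [interior_Ici, Set.mem_Ioi] at hv
      rw [(hd1 v).deriv]
      have := (hd0 v hv.le).1
      positivity
    have h1 : ∀ᶠ v in atTop, L 0 ≤ Real.exp (-(α * v)) * L v := by
      filter_upwards [eventually_ge_atTop 0] with v hv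
      have := hmono (Set.mem_Ici.2 le_rfl) (Set.mem_Ici.2 hv) hv
      simpa using this
    exact ge_of_tendsto hlimL h1
  have hlow : -(D / α) ≤ L 0 := by
    set Q : ℝ → ℝ := fun v => Real.exp (-(α * v)) * L v +
      p * i * D * (Real.exp (-(i * v)) / i - Real.exp (-(α * v)) / α) with hQ
    have hQ' : ∀ v, HasDerivAt Q (Real.exp (-(α * v)) * (p * i * (p * (P - J v))) +
        p * i * D * (Real.exp (-(i * v)) * (-i) / i - Real.exp (-(α * v)) * (-α) / α)) v := by
      intro v
      exact (hd1 v).add ((((hE' i v).div_const i).sub ((hE' α v).div_const α)).const_mul _)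
    have hanti : AntitoneOn Q (Set.Ici 0) := by
      refine antitoneOn_of_deriv_nonpos (convex_Ici 0)
        (fun v _ => (hQ' v).continuousAt.continuousWithinAt)
        (fun v _ => (hQ' v).differentiableAt.differentiableWithinAt) ?_
      intro v hv
      rw [interior_Ici, Set.mem_Ioi] at hv
      rw [(hQ' v).deriv]
      have h1 := (hd0 v hv.le).2
      have e1 : Real.exp (-(i * v)) * (-i) / i = -Real.exp (-(i * v)) := by field_simp
      have e2 : Real.exp (-(α * v)) * (-α) / α = -Real.exp (-(α * v)) := by field_simp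
      have e3 : Real.exp (-(i * v)) = Real.exp (-(α * v)) * Real.exp (v / p) := by
        rw [← Real.exp_add]
        congr 1
        rw [hα]
        ring
      rw [e1, e2, e3]
      have h2 : Real.exp (-(α * v)) * (p * i * (p * (P - J v))) ≤
          Real.exp (-(α * v)) * (p * i * ((Real.exp (v / p) - 1) * D)) := by
        refine mul_le_mul_of_nonneg_left (mul_le_mul_of_nonneg_left h1 (by positivity))
          (Real.exp_pos _).le
      have e4 : Real.exp (-(α * v)) * (p * i * ((Real.exp (v / p) - 1) * D)) +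
          p * i * D * (-(Real.exp (-(α * v)) * Real.exp (v / p)) - -Real.exp (-(α * v))) = 0 := by
        ring
      linarith
    have hlimQ : Tendsto Q atTop (𝓝 0) := by
      have h1 := hlimL.add ((((hlim i hi).div_const i).sub ((hlim α hα0).div_const α)).const_mul
        (p * i * D))
      simpa using h1
    have h1 : ∀ᶠ v in atTop, Q v ≤ Q 0 := by
      filter_upwards [eventually_ge_atTop 0] with v hv
      exact hanti (Set.mem_Ici.2 le_rfl) (Set.mem_Ici.2 hv) hv
    have h2 : 0 ≤ Q 0 := le_of_tendsto hlimQ h1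
    have h3 : Q 0 = L 0 + p * i * D * (1 / i - 1 / α) := by
      rw [hQ]
      simp
    have h4 : p * i * D * (1 / i - 1 / α) = D / α := by
      field_simp
      linear_combination D * hpα
    rw [h3, h4] at h2
    linarith
  rw [abs_le]
  refine ⟨hlow, hup.trans ?_⟩
  have hD0 : 0 ≤ D / α := by linarith
  exact hD0

end Pool.Agent.W2helper3.BQ
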