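import Pool.Agent.W2helper3.BQ.Stm

/-!
# Project BQ, piece LC1: the integrated bound
-/

set_option autoImplicit false

open MeasureTheory Set Filter Topology
open scoped SchwartzMap ENNReal ContDiff BigOperators Convolution Interval

namespace Pool.Agent.W2helper3.BQ

namespace LC1aux

/-- the kernel -/
noncomputable def kr (c : ℝ) (v : ℝ) : ℝ := Real.exp (-(c * |v|))

theorem kr_cont (c : ℝ) : Continuous (kr c) :=
  Real.continuous_exp.comp (continuous_const.mul continuous_abs).neg

theorem kr_pos (c v : ℝ) : 0 < kr c v := Real.exp_pos _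

theorem kr_int {c : ℝ} (hc : 0 < c) : Integrable (kr c) := by
  have h1 : IntegrableOn (kr c) (Ioi 0) := by
    refine (integrableOn_exp_mul_Ioi (a := -c) (by linarith) 0).congr_fun ?_ measurableSet_Ioi
    intro v hv
    simp only [kr]
    rw [abs_of_pos hv]
    congr 1
    ring
  have h2 : IntegrableOn (kr c) (Iic 0) := by
    have h3 := h1.comp_neg
    rw [Set.neg_Ioi, neg_zero] at h3
    refine (integrableOn_Iic_iff_integrableOn_Iio).2 (h3.congr_fun ?_ measurableSet_Iio)
    intro v _
    show kr c (-v) = kr c v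
    simp only [kr, abs_neg]
  rw [← integrableOn_univ, ← Iic_union_Ioi (a := (0 : ℝ))]
  exact h2.union h1

theorem kr_integral {c : ℝ} (hc : 0 < c) : ∫ v, kr c v = 2 / c := by
  have h1 : ∫ v, kr c v = 2 * ∫ v in Ioi (0 : ℝ), Real.exp (-(c * v)) := by
    have := integral_comp_abs (f := fun v => Real.exp (-(c * v)))
    exact this
  rw [h1]
  have h2 : ∫ v in Ioi (0 : ℝ), Real.exp (-(c * v)) = 1 / c := by
    have h3 := integral_exp_mul_Ioi (a := -c) (by linarith) 0
    rw [mul_zero, Real.exp_zero] at h3
    have h4 : ∫ v in Ioi (0 : ℝ), Real.exp (-(c * v)) = ∫ v in Ioi (0 : ℝ), Real.exp (-c * v) := by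
      refine setIntegral_congr_fun measurableSet_Ioi fun v _ => ?_
      congr 1
      ring
    rw [h4, h3]
    field_simp
  rw [h2]
  ring

theorem conv_eq (c : ℝ) (f : ℝ → ℝ) (u : ℝ) :
    ∫ v, kr c v * f (u + v) = (kr c ⋆[ContinuousLinearMap.mul ℝ ℝ, volume] f) u := by
  rw [convolution_def]
  have h := integral_neg_eq_self (fun v => kr c v * f (u + v)) (volume : Measure ℝ)
  rw [← h]
  refine integral_congr_ae (Eventually.of_forall fun v => ?_)
  simp only [ContinuousLinearMap.mul_apply', kr, abs_neg]
  rw [← sub_eq_add_neg]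

theorem conv_int {c : ℝ} (hc : 0 < c) {f : ℝ → ℝ} (hf : Integrable f) :
    Integrable (fun u => ∫ v, kr c v * f (u + v)) := by
  have := (kr_int hc).integrable_convolution (ContinuousLinearMap.mul ℝ ℝ) hf
  refine this.congr (Eventually.of_forall fun u => ?_)
  exact (conv_eq c f u).symm

theorem conv_integral {c : ℝ} (hc : 0 < c) {f : ℝ → ℝ} (hf : Integrable f) :
    ∫ u, ∫ v, kr c v * f (u + v) = 2 / c * ∫ u, f u := by
  have := integral_convolution (ContinuousLinearMap.mul ℝ ℝ) (kr_int hc) hf
  rw [ContinuousLinearMap.mul_apply', kr_integral hc] at this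
  rw [← this]
  exact integral_congr_ae (Eventually.of_forall fun u => conv_eq c f u)

theorem conv_cont {c : ℝ} (hc : 0 < c) {f : ℝ → ℝ} (hf : Continuous f) (hfc : HasCompactSupport f) :
    Continuous (fun u => ∫ v, kr c v * f (u + v)) := by
  have h1 := hfc.continuous_convolution_right (L := ContinuousLinearMap.mul ℝ ℝ) (μ := volume)
    (kr_int hc).locallyIntegrable hf
  have h2 : (fun u => ∫ v, kr c v * f (u + v)) =
      (kr c ⋆[ContinuousLinearMap.mul ℝ ℝ, volume] f) := funext fun u => conv_eq c f u
  rw [h2]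
  exact h1

theorem prod_int {c : ℝ} (_ : 0 < c) {f : ℝ → ℝ} (hf : Continuous f)
    (hfc : HasCompactSupport f) (u : ℝ) : Integrable (fun v => kr c v * f (u + v)) := by
  refine Continuous.integrable_of_hasCompactSupport
    ((kr_cont c).mul (hf.comp (continuous_const_add u))) ?_
  exact (hfc.comp_homeomorph (Homeomorph.addLeft u)).mul_left

/-- the bound of the interval integral -/
theorem interval_bound {f : ℝ → ℝ} (hf : Continuous f) (hfc : HasCompactSupport f)
    (h0 : ∀ u, 0 ≤ f u) (u v : ℝ) :
    kr (1 / 8) v * |∫ t in (u + v)..u, f t| ≤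
      kr (1 / 16) v * ∫ s, kr (1 / 16) s * f (u + s) := by
  have h1 : |∫ t in (u + v)..u, f t| = ∫ t in Ι (u + v) u, f t := by
    rw [intervalIntegral.abs_integral_eq_abs_integral_uIoc, abs_of_nonneg]
    exact setIntegral_nonneg measurableSet_uIoc fun t _ => h0 t
  have hint : Integrable f := hf.integrable_of_hasCompactSupport hfc
  have h2 : kr (1 / 16) v * ∫ t in Ι (u + v) u, f t ≤
      ∫ t in Ι (u + v) u, kr (1 / 16) (t - u) * f t := by
    rw [← integral_const_mul]
    refine setIntegral_mono_on (hint.integrableOn.const_mul _) ?_ measurableSet_uIoc ?_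
    · refine Integrable.integrableOn ?_
      have := (prod_int (c := 1 / 16) (by norm_num) hf hfc u).comp_sub_right u
      refine this.congr (Eventually.of_forall fun t => ?_)
      simp only
      congr 2
      ring
    · intro t ht
      refine mul_le_mul_of_nonneg_right ?_ (h0 t)
      unfold kr
      refine Real.exp_le_exp.2 ?_
      have h3 : |t - u| ≤ |v| := by
        rw [Set.mem_uIoc] at ht
        rcases ht with ht | ht
        · have : t - u ≤ 0 := by linarith [ht.2]
          rw [abs_of_nonpos this]
          have h4 : v ≤ 0 := by linarith [ht.1, ht.2]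
          rw [abs_of_nonpos h4]
          linarith [ht.1]
        · have : 0 ≤ t - u := by linarith [ht.1]
          rw [abs_of_nonneg this]
          have h4 : 0 ≤ v := by linarith [ht.1, ht.2]
          rw [abs_of_nonneg h4]
          linarith [ht.2]
      linarith
  have h3 : ∫ t in Ι (u + v) u, kr (1 / 16) (t - u) * f t ≤ ∫ t, kr (1 / 16) (t - u) * f t := by
    refine setIntegral_le_integral ?_ (Eventually.of_forall fun t => ?_)
    · have := (prod_int (c := 1 / 16) (by norm_num) hf hfc u).comp_sub_right u
      refine this.congr (Eventually.of_forall fun t => ?_)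
      simp only
      congr 2
      ring
    · exact mul_nonneg (kr_pos _ _).le (h0 t)
  have h4 : ∫ t, kr (1 / 16) (t - u) * f t = ∫ s, kr (1 / 16) s * f (u + s) := by
    have := integral_sub_right_eq_self (fun s => kr (1 / 16) s * f (u + s)) (μ := volume) u
    rw [← this]
    refine integral_congr_ae (Eventually.of_forall fun t => ?_)
    simp only
    congr 2
    ring
  have h5 : kr (1 / 8) v = kr (1 / 16) v * kr (1 / 16) v := by
    unfold kr
    rw [← Real.exp_add]
    congr 1
    ring
  rw [h1, h5, mul_assoc]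
  refine mul_le_mul_of_nonneg_left ?_ (kr_pos _ _).le
  exact h2.trans (h3.trans h4.le)

end LC1aux

open LC1aux in
theorem p_LC1 : P_LC1 := by
  intro hPT hJE C hC
  obtain ⟨C₁, p₀, hC₁, hp₀, hpt⟩ := hPT (16 * C) (by positivity)
  refine ⟨4129 * C₁, p₀, by positivity, hp₀, ?_⟩
  intro p hp A Db X hA hDb hX hAc hDbc hXc hA0 hDb0 hX0 h1 h2 h3
  have hp4 : 4 ≤ p := hp₀.trans hp
  have hp0 : 0 < p := by linarith
  set Ψ : ℝ → ℝ → ℝ := fun a X' => p ^ 2 / 2 * (16 * C * a / p) ^ 2 *
    (X' + 16 * C * a / p) ^ (p - 2) with hΨ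
  set H : ℝ → ℝ := fun u => ∫ s, kr (1 / 16) s * Db (u + s) with hH
  set W : ℝ → ℝ := fun u => WW C p A u with hW
  have hDbi : Integrable Db := hDb.integrable_of_hasCompactSupport hDbc
  have hH0 : ∀ u, 0 ≤ H u := fun u =>
    integral_nonneg fun s => mul_nonneg (kr_pos _ _).le (hDb0 _)
  have hHi : Integrable H := conv_int (by norm_num) hDbi
  have hHint : ∫ u, H u = 32 * ∫ u, Db u := by
    rw [hH, conv_integral (by norm_num) hDbi]
    norm_num
  -- pointwise bound
  have hpt' : ∀ u v, kr (1 / 4) v * Ψ (A (u + v)) (X u) ≤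
      C₁ / p * (kr (1 / 16) v * Db (u + v) + 4 * (kr (1 / 16) v * H u)) := by
    intro u v
    have h4 := hpt p hp (A (u + v)) (X (u + v)) (X u)
      (Real.exp (|v| / 8) * (4 / p * |∫ t in (u + v)..u, Db t|)) (Db (u + v))
      (Real.exp (|v| / 8)) (hA0 _) (hX0 _) (hX0 _) (by positivity) (hDb0 _)
      (Real.one_le_exp (by positivity)) (h1 _) (h2 _) (by
        have h5 := h3 (u + v) (-v)
        rw [abs_neg, add_neg_cancel_right] at h5
        linarith)
    have e1 : kr (1 / 4) v = kr (1 / 8) v * Real.exp (-(|v| / 8)) := by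
      unfold kr
      rw [← Real.exp_add]
      congr 1
      ring
    have e2 : Real.exp (-(|v| / 8)) * Real.exp (|v| / 8) = 1 := by
      rw [← Real.exp_add, neg_add_cancel, Real.exp_zero]
    have h5 : kr (1 / 4) v * Ψ (A (u + v)) (X u) ≤ kr (1 / 4) v *
        (C₁ / p * Real.exp (|v| / 8) * Db (u + v) +
        C₁ * (Real.exp (|v| / 8) * (4 / p * |∫ t in (u + v)..u, Db t|))) :=
      mul_le_mul_of_nonneg_left h4 (kr_pos _ _).le
    have e3 : kr (1 / 4) v * (C₁ / p * Real.exp (|v| / 8) * Db (u + v) +
        C₁ * (Real.exp (|v| / 8) * (4 / p * |∫ t in (u + v)..u, Db t|))) =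
        C₁ / p * (kr (1 / 8) v * Db (u + v) + 4 * (kr (1 / 8) v *
          |∫ t in (u + v)..u, Db t|)) := by
      rw [e1]
      linear_combination (kr (1 / 8) v * (C₁ / p * Db (u + v) +
        C₁ * (4 / p * |∫ t in (u + v)..u, Db t|))) * e2
    rw [e3] at h5
    refine h5.trans (mul_le_mul_of_nonneg_left ?_ (by positivity))
    have h6 := interval_bound hDb hDbc hDb0 u v
    have h7 : kr (1 / 8) v ≤ kr (1 / 16) v := by
      unfold kr
      refine Real.exp_le_exp.2 ?_
      have := abs_nonneg v
      linarith
    have h8 := mul_le_mul_of_nonneg_right h7 (hDb0 (u + v))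
    linarith
  have hΨ0 : ∀ a X', 0 ≤ a → 0 ≤ X' → 0 ≤ Ψ a X' := by
    intro a X' ha hX'
    rw [hΨ]
    positivity
  -- the bound of the integrand
  have hbound : ∀ u, p ^ 2 / 2 * (W u) ^ 2 * (X u + W u) ^ (p - 2) ≤
      C₁ / p * (Db u + 129 * H u) := by
    intro u
    have h4 := hJE C p hC hp4 A (X u) hA hAc hA0 (hX0 u) u
    have h5 : Ψ (A u) (X u) ≤ C₁ / p * Db u := by
      have := hpt p hp (A u) (X u) (X u) 0 (Db u) 1 (hA0 _) (hX0 _) (hX0 _) le_rfl (hDb0 _)
        le_rfl (h1 _) (h2 _) (by linarith)
      rw [mul_one, mul_zero, add_zero] at this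
      exact this
    have h6 : ∫ v, Real.exp (-|v| / 4) * Ψ (A (u + v)) (X u) ≤ C₁ / p * (129 * H u) := by
      have e1 : ∀ v, Real.exp (-|v| / 4) * Ψ (A (u + v)) (X u) =
          kr (1 / 4) v * Ψ (A (u + v)) (X u) := by
        intro v
        unfold kr
        congr 2
        ring
      rw [integral_congr_ae (Eventually.of_forall e1)]
      have hi1 : Integrable fun v => kr (1 / 4) v * Ψ (A (u + v)) (X u) := by
        have hc1 : Continuous fun v => Ψ (A (u + v)) (X u) := by
          rw [hΨ]
          have hAu : Continuous fun v => 16 * C * A (u + v) / p :=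
            (continuous_const.mul (hA.comp (continuous_const_add u))).div_const _
          refine (continuous_const.mul (hAu.pow 2)).mul ?_
          exact (continuous_const.add hAu).rpow_const fun _ => Or.inr (by linarith)
        refine Continuous.integrable_of_hasCompactSupport ((kr_cont _).mul hc1) ?_
        refine (hAc.comp_homeomorph (Homeomorph.addLeft u)).mono ?_
        intro v hv
        rw [Function.mem_support] at hv ⊢
        intro h
        have h' : A (u + v) = 0 := h
        refine hv ?_
        rw [hΨ]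
        simp only
        rw [h']
        simp
      have hi2 : Integrable fun v => C₁ / p * (kr (1 / 16) v * Db (u + v) +
          4 * (kr (1 / 16) v * H u)) :=
        ((prod_int (by norm_num) hDb hDbc u).add
          (((kr_int (by norm_num)).mul_const _).const_mul _)).const_mul _
      refine (integral_mono hi1 hi2 fun v => hpt' u v).trans ?_
      rw [integral_const_mul, integral_add (prod_int (by norm_num) hDb hDbc u)
        (((kr_int (by norm_num)).mul_const _).const_mul _), integral_const_mul,
        integral_mul_const, kr_integral (by norm_num)]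
      refine mul_le_mul_of_nonneg_left ?_ (by positivity)
      have : ∫ v, kr (1 / 16) v * Db (u + v) = H u := rfl
      rw [this]
      have h0 := hH0 u
      norm_num
      linarith
    have h7 : C₁ / p * (Db u + 129 * H u) = C₁ / p * Db u + C₁ / p * (129 * H u) := by ring
    rw [h7]
    refine h4.trans (add_le_add h5 h6)
  have hWc : Continuous W := by
    have h4 : W = fun u => C / p * (A u + ∫ v, kr (1 / 4) v * A (u + v)) := by
      funext u
      have h5 : ∫ v, Real.exp (-|v| / 4) * A (u + v) = ∫ v, kr (1 / 4) v * A (u + v) := by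
        refine integral_congr_ae (Eventually.of_forall fun v => ?_)
        show Real.exp (-|v| / 4) * A (u + v) = Real.exp (-(1 / 4 * |v|)) * A (u + v)
        congr 2
        ring
      show C / p * (A u + ∫ v, Real.exp (-|v| / 4) * A (u + v)) = _
      rw [h5]
    rw [h4]
    exact continuous_const.mul (hA.add (conv_cont (by norm_num) hA hAc))
  have hW0 : ∀ u, 0 ≤ W u := by
    intro u
    rw [hW]
    unfold WW
    refine mul_nonneg (by positivity) (add_nonneg (hA0 u) (integral_nonneg fun v => ?_))
    exact mul_nonneg (Real.exp_pos _).le (hA0 _)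
  have hFc : Continuous fun u => p ^ 2 / 2 * (W u) ^ 2 * (X u + W u) ^ (p - 2) :=
    (continuous_const.mul (hWc.pow 2)).mul
      ((hX.add hWc).rpow_const fun _ => Or.inr (by linarith))
  have hi3 : Integrable fun u => C₁ / p * (Db u + 129 * H u) :=
    (hDbi.add (hHi.const_mul 129)).const_mul _
  have hi4 : Integrable fun u => p ^ 2 / 2 * (W u) ^ 2 * (X u + W u) ^ (p - 2) := by
    refine hi3.mono' hFc.aestronglyMeasurable (Eventually.of_forall fun u => ?_)
    rw [Real.norm_of_nonneg]
    · exact hbound u
    · have := hW0 u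
      have := hX0 u
      positivity
  refine ⟨hi4, ?_⟩
  refine (integral_mono hi4 hi3 hbound).trans ?_
  rw [integral_const_mul, integral_add hDbi (hHi.const_mul _), integral_const_mul, hHint]
  have : C₁ / p * ((∫ u, Db u) + 129 * (32 * ∫ u, Db u)) = 4129 * C₁ / p * ∫ u, Db u := by ring
  rw [this]

end Pool.Agent.W2helper3.BQ
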